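import Pool.Agent.H968R2.Quad.ExistsModel
import Pool.Agent.W418.Chart
import Pool.Agent.W418.Glue
import Pool.Agent.W418.Gen1

/-! The generic fibre of the model `Proj ⨁ Mⁿ` over a general base: algebra. -/

set_option autoImplicit false
set_option linter.unusedSectionVars false
set_option linter.style.haveILetI false

open AlgebraicGeometry CategoryTheory CategoryTheory.Limits HomogeneousLocalization

namespace Pool.Agent.W418.GO

open Pool.Agent.H968R2.Quad

section fz

variable {A F σ : Type} [CommRing A] [Field F] [SetLike σ A] [AddSubgroupClass σ A] (𝒜 : ℕ → σ)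
  [GradedRing 𝒜] (ε : A →+* F)

lemma psi_fromZero (f : A) (hf : ε f ≠ 0) (r : 𝒜 0) :
    Pool.Agent.W418.psi 𝒜 ε f hf (fromZeroRingHom 𝒜 (Submonoid.powers f) r) = ε r := by
  unfold Pool.Agent.W418.psi
  rw [RingHom.comp_apply, HomogeneousLocalization.algebraMap_apply]
  have h1 : (fromZeroRingHom 𝒜 (Submonoid.powers f) r).val =
      algebraMap A (Localization.Away f) r := by
    change Localization.mk (r : A) _ = _
    rw [← Localization.mk_one_eq_algebraMap]
    rfl
  rw [h1, IsLocalization.Away.lift_eq]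

end fz

section alg

variable {O K F A : Type} [CommRing O] [IsDomain O] [Field K] [Algebra O K] [IsFractionRing O K]
  [Field F] [Algebra K F] [Algebra O F] [IsScalarTower O K F] [CommRing A] [Algebra K A]
  (𝒜 : ℕ → Submodule K A) [GradedAlgebra 𝒜] (ε : A →ₐ[K] F)
  (hε : ∀ d, ∀ a ∈ 𝒜 d, ε a = 0 → a = 0)
  (hgen : ∀ d, (𝒜 d).map ε.toLinearMap = ((𝒜 1).map ε.toLinearMap) ^ d)
  (D : ℕ) (hD : 0 < D) (M : Submodule O F)
  (hML : ∀ y ∈ M, y ∈ (𝒜 1).map ε.toLinearMap ^ D)
  (hLM : ∀ y ∈ (𝒜 1).map ε.toLinearMap ^ D, ∃ s : O, s ≠ 0 ∧ s • y ∈ M)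

omit [IsDomain O] [IsFractionRing O K] [IsScalarTower O K F] in
lemma evalOne_hom (d : ℕ) (a : mAlg M) (ha : a ∈ mPiece M d) (h : evalOne M a = 0) : a = 0 := by
  rw [eq_mMon M ha, evalOne_mMon] at h
  rw [eq_mMon M ha]
  apply Subtype.ext
  simp only [mMon]
  rw [h, Polynomial.monomial_zero_right]
  rfl

lemma pow_mem_of_mem {L : Submodule K F} (h : ∀ y ∈ M, y ∈ L) (n : ℕ) :
    ∀ y ∈ M ^ n, y ∈ L ^ n := by
  induction n with
  | zero =>
    intro y hy
    rw [pow_zero] at hy ⊢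
    obtain ⟨r, rfl⟩ := Submodule.mem_one.1 hy
    exact Submodule.mem_one.2 ⟨algebraMap O K r, (IsScalarTower.algebraMap_apply O K F r).symm⟩
  | succ n ih =>
    intro y hy
    rw [pow_succ] at hy ⊢
    refine Submodule.mul_induction_on hy (fun a ha b hb => Submodule.mul_mem_mul (ih a ha) (h b hb))
      (fun a b ha hb => Submodule.add_mem _ ha hb)

lemma exists_smul_mem_pow {L : Submodule K F} (h : ∀ y ∈ L, ∃ s : O, s ≠ 0 ∧ s • y ∈ M) (n : ℕ) :
    ∀ y ∈ L ^ (n + 1), ∃ s : O, s ≠ 0 ∧ s • y ∈ M ^ (n + 1) := by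
  induction n with
  | zero => simpa using h
  | succ n ih =>
    intro y hy
    rw [pow_succ] at hy
    refine Submodule.mul_induction_on hy (fun a ha b hb => ?_) (fun a b ha hb => ?_)
    · obtain ⟨s, hs, hsa⟩ := ih a ha
      obtain ⟨t, ht, htb⟩ := h b hb
      refine ⟨s * t, mul_ne_zero hs ht, ?_⟩
      rw [pow_succ, show (s * t) • (a * b) = (s • a) * (t • b) by
        rw [smul_mul_smul_comm]]
      exact Submodule.mul_mem_mul hsa htb
    · obtain ⟨s, hs, hsa⟩ := ha
      obtain ⟨t, ht, htb⟩ := hb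
      refine ⟨s * t, mul_ne_zero hs ht, ?_⟩
      rw [smul_add]
      refine Submodule.add_mem _ ?_ ?_
      · rw [mul_comm, mul_smul]
        exact Submodule.smul_mem _ _ hsa
      · rw [mul_smul]
        exact Submodule.smul_mem _ _ htb

variable (f : F) (hf : f ∈ M) (hf0 : f ≠ 0) (h : A) (hh : h ∈ 𝒜 D) (hhf : ε h = f)

lemma evT (f : F) (hf : f ∈ M) (hf0 : f ≠ 0) : evalOne M (tElt M f hf) ≠ 0 := by
  rwa [evalOne_tElt]

omit [IsDomain O] [IsFractionRing O K] in
lemma evh (f : F) (hf0 : f ≠ 0) (h : A) (hhf : ε h = f) : (ε : A →+* F) h ≠ 0 := by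
  intro h1
  apply hf0
  rw [← hhf]
  exact h1

/-- The structure map of a chart of the model. -/
noncomputable def rho (f : F) (hf : f ∈ M) : O →+* Away (mPiece M) (tElt M f hf) :=
  (fromZeroRingHom (mPiece M) (Submonoid.powers (tElt M f hf))).comp (toZero M)

lemma psi_rho (o : O) : Pool.Agent.W418.psi (mPiece M) (evalOne M) (tElt M f hf)
    (evT M f hf hf0) (rho M f hf o) = algebraMap O F o := by
  unfold rho
  rw [RingHom.comp_apply, psi_fromZero]
  simp only [toZero, mMon, RingHom.coe_mk, MonoidHom.coe_mk, OneHom.coe_mk, evalOne]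
  simp

include hε hgen hML hh in
lemma exists_phi : ∃ φ : Away (mPiece M) (tElt M f hf) →+* Away 𝒜 h,
    (Pool.Agent.W418.psi 𝒜 (ε : A →+* F) h (evh ε f hf0 h hhf)).comp φ =
      Pool.Agent.W418.psi (mPiece M) (evalOne M) (tElt M f hf) (evT M f hf hf0) := by
  refine exists_factor _ (Pool.Agent.W418.psi_injective 𝒜 (ε : A →+* F) hε hh _) _ ?_
  intro b
  obtain ⟨n, a, ha, hb⟩ := (Pool.Agent.W418.mem_range_psi (mPiece M) (evalOne M)
    (tElt_mem M f hf) (evT M f hf hf0) _).1 ⟨b, rfl⟩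
  rw [hb]
  have ha' : a ∈ mPiece M n := by simpa using ha
  have h1 : evalOne M a ∈ M ^ n := by
    rw [eq_mMon M ha', evalOne_mMon]
    exact a.2 n
  have h2 := pow_mem_of_mem (K := K) M hML n _ h1
  rw [← pow_mul, mul_comm D n, ← hgen] at h2
  obtain ⟨a', ha1, ha2⟩ := h2
  rw [Pool.Agent.W418.mem_range_psi 𝒜 (ε : A →+* F) hh]
  refine ⟨n, a', by simpa using ha1, ?_⟩
  rw [evalOne_tElt]
  have h3 : (ε : A →+* F) h = f := hhf
  have h4 : (ε : A →+* F) a' = evalOne M a := ha2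
  rw [h3, h4]

include hε hgen hLM hh in
lemma phi_isLocalization (φ : Away (mPiece M) (tElt M f hf) →+* Away 𝒜 h)
    (hφ : (Pool.Agent.W418.psi 𝒜 (ε : A →+* F) h (evh ε f hf0 h hhf)).comp φ =
      Pool.Agent.W418.psi (mPiece M) (evalOne M) (tElt M f hf) (evT M f hf hf0)) :
    letI := φ.toAlgebra
    IsLocalization ((nonZeroDivisors O).map (rho M f hf)) (Away 𝒜 h) := by
  letI := φ.toAlgebra
  set i := Pool.Agent.W418.psi 𝒜 (ε : A →+* F) h (evh ε f hf0 h hhf) with hi
  have hinj : Function.Injective i := Pool.Agent.W418.psi_injective 𝒜 (ε : A →+* F) hε hh _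
  have hinj2 := Pool.Agent.W418.psi_injective (mPiece M) (evalOne M) (evalOne_hom M)
    (tElt_mem M f hf) (evT M f hf hf0)
  have hφinj : Function.Injective φ := by
    intro a b hab
    apply hinj2
    rw [← hφ, RingHom.comp_apply, RingHom.comp_apply, hab]
  have h3 : ∀ z, i (φ z) = Pool.Agent.W418.psi (mPiece M) (evalOne M) (tElt M f hf)
      (evT M f hf hf0) z := by
    intro z
    rw [← hφ]
    rfl
  have hOK : Function.Injective (algebraMap O K) := IsFractionRing.injective O K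
  have hu : ∀ s : O, s ≠ 0 → IsUnit (φ (rho M f hf s)) := by
    intro s hs
    have hsK : algebraMap O K s ≠ 0 := fun h => hs (hOK (by rw [h, map_zero]))
    have h1 : algebraMap K A ((algebraMap O K s)⁻¹) ∈ 𝒜 (0 • D) := by
      rw [zero_smul]
      exact SetLike.algebraMap_mem_graded 𝒜 _
    refine IsUnit.of_mul_eq_one (Away.mk 𝒜 hh 0 _ h1) ?_
    apply hinj
    rw [map_mul, map_one, h3, psi_rho M f hf hf0, hi, Pool.Agent.W418.psi_mk, pow_zero, div_one]
    have h2 : (ε : A →+* F) (algebraMap K A ((algebraMap O K s)⁻¹)) =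
      algebraMap K F ((algebraMap O K s)⁻¹) := ε.commutes _
    rw [h2, map_inv₀, IsScalarTower.algebraMap_apply O K F]
    exact mul_inv_cancel₀ ((map_ne_zero _).2 hsK)
  refine ⟨?_, ?_, ?_⟩
  · rintro ⟨_, s, hs, rfl⟩
    exact hu s (nonZeroDivisors.ne_zero hs)
  · intro r
    obtain ⟨n, a, ha, hr⟩ := (Pool.Agent.W418.mem_range_psi 𝒜 (ε : A →+* F) hh
      (evh ε f hf0 h hhf) _).1 ⟨r, rfl⟩
    have h1 : ε (a * h) ∈ ((𝒜 1).map ε.toLinearMap ^ D) ^ (n + 1) := by
      rw [← pow_mul, ← hgen]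
      refine ⟨a * h, ?_, rfl⟩
      have h2 := SetLike.mul_mem_graded ha hh
      have h3 : n • D + D = D * (n + 1) := by rw [smul_eq_mul]; ring
      rw [h3] at h2
      exact h2
    obtain ⟨s, hs, hsM⟩ := exists_smul_mem_pow M hLM n _ h1
    have h2 : mMon M (n + 1) _ hsM ∈ mPiece M ((n + 1) • 1) := by
      rw [smul_eq_mul, mul_one]
      exact mMon_mem M _ _ _
    refine ⟨(Away.mk (mPiece M) (tElt_mem M f hf) (n + 1) _ h2,
      ⟨_, s, mem_nonZeroDivisors_of_ne_zero hs, rfl⟩), ?_⟩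
    apply hinj
    change i (r * φ (rho M f hf s)) = i (φ _)
    rw [h3, map_mul, h3, psi_rho M f hf hf0, Pool.Agent.W418.psi_mk, evalOne_mMon, evalOne_tElt]
    rw [hi] at *
    rw [hr]
    have h4 : (ε : A →+* F) h = f := hhf
    have h5 : ε (a * h) = ε a * f := by rw [map_mul, hhf]
    rw [h4, h5, Algebra.smul_def]
    have h6 : (ε : A →+* F) a = ε a := rfl
    rw [h6, pow_succ]
    field_simp
  · intro x y hxy
    refine ⟨1, ?_⟩
    have h1 : x = y := hφinj hxy
    rw [h1]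

end alg

end Pool.Agent.W418.GO
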