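import Pool.Agent.W418.GO.Sch

/-! Regular proper flat models from modules, over a Dedekind domain. -/

set_option autoImplicit false
set_option linter.unusedSectionVars false
set_option linter.style.haveILetI false

open AlgebraicGeometry CategoryTheory CategoryTheory.Limits HomogeneousLocalization

namespace Pool.Agent.W418.GO

open Pool.Agent.H968R2.Quad

lemma flat_of_inj {O B : Type} [CommRing O] [IsDedekindDomain O] [CommRing B] [IsDomain B]
    (ρ : O →+* B) (h : Function.Injective ρ) : ρ.Flat := by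
  letI := ρ.toAlgebra
  have h3 : Module.Flat O B := by
    refine (IsDedekindDomain.flat_iff_torsion_eq_bot (R := O) (M := B)).2 ?_
    rw [← Submodule.isTorsionFree_iff_torsion_eq_bot]
    exact (Module.isTorsionFree_iff_algebraMap_injective (R := O) (A := B)).2 h
  exact h3

section

variable {O : Type} [CommRing O] [IsDedekindDomain O] {F : Type} [Field F] [Algebra O F]
  (M : Submodule O F)

lemma model_flat (hOF : Function.Injective (algebraMap O F)) : Flat (modelMap M) := by
  have h0 : ∀ (i : Ind M), Flat (modelChart M i.1 i.2.1 ≫ modelMap M) := by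
    rintro ⟨a, ha, ha0⟩
    change Flat (modelChart M a ha ≫ modelMap M)
    rw [modelChart_map, Flat.SpecMap_iff, CommRingCat.hom_ofHom]
    have hinj := Pool.Agent.W418.psi_injective (mPiece M) (evalOne M) (evalOne_hom M)
      (tElt_mem M a ha) (evT M a ha ha0)
    have hd : IsDomain (Away (mPiece M) (tElt M a ha)) := hinj.isDomain _
    have hr : Function.Injective (rho M a ha) := by
      intro x y hxy
      apply hOF
      rw [← psi_rho M a ha ha0, ← psi_rho M a ha ha0, hxy]
    exact flat_of_inj _ hr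
  let 𝒰 : Scheme.OpenCover (model M) := Scheme.Cover.mkOfCovers (Ind M) _
    (fun i : Ind M => modelChart M i.1 i.2.1) (fun y => by
      obtain ⟨a, ha, ha0, z, hz⟩ := exists_chart M y
      exact ⟨⟨a, ha, ha0⟩, z, hz⟩) inferInstance
  have hz : IsZariskiLocalAtSource @Flat := HasRingHomProperty.instIsZariskiLocalAtSource
  rw [IsZariskiLocalAtSource.iff_of_openCover (P := @Flat) 𝒰]
  exact h0

/-- The conclusion of the problem over the Dedekind domain `O`. -/
def HasModel (O K : Type) [CommRing O] [Field K] [Algebra O K] {X : Scheme.{0}}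
    (f : X ⟶ Spec (CommRingCat.of K)) : Prop :=
  ∃ (Y : Scheme.{0}) (g : Y ⟶ Spec (CommRingCat.of O)),
    IsProper g ∧ Flat g ∧
    (∀ y : Y, ringKrullDim (Y.presheaf.stalk y) =
      (((Module.finrank (IsLocalRing.ResidueField (Y.presheaf.stalk y))
          (IsLocalRing.CotangentSpace (Y.presheaf.stalk y)) : ℕ) : ℕ∞) : WithBot ℕ∞)) ∧
    ∃ e : pullback g (Spec.map (CommRingCat.ofHom (algebraMap O K))) ≅ X,
      e.hom ≫ f = pullback.snd g (Spec.map (CommRingCat.ofHom (algebraMap O K)))

end

theorem hasModel_of_module {O K F A : Type} [CommRing O] [IsDedekindDomain O] [Field K]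
    [Algebra O K] [IsFractionRing O K] [Field F] [Algebra K F] [Algebra O F]
    [IsScalarTower O K F] [CommRing A] [Algebra K A]
    (𝒜 : ℕ → Submodule K A) [GradedAlgebra 𝒜] (ε : A →ₐ[K] F)
    (hε : ∀ d, ∀ a ∈ 𝒜 d, ε a = 0 → a = 0)
    (hgen : ∀ d, (𝒜 d).map ε.toLinearMap = ((𝒜 1).map ε.toLinearMap) ^ d)
    (D : ℕ) (hD : 0 < D) (M : Submodule O F)
    (hML : ∀ y ∈ M, y ∈ (𝒜 1).map ε.toLinearMap ^ D)
    (hLM : ∀ y ∈ (𝒜 1).map ε.toLinearMap ^ D, ∃ s : O, s ≠ 0 ∧ s • y ∈ M)
    (hM : M.FG)
    (hreg : ∀ f ∈ M, f ≠ 0 →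
      ∀ (q : Ideal (Algebra.adjoin O {y : F | ∃ m ∈ M, y = m / f})) [q.IsPrime],
      IsRegularLocalRing (Localization.AtPrime q))
    {X : Scheme.{0}} (f : X ⟶ Spec (CommRingCat.of K)) (i : X ≅ Proj 𝒜)
    (hi : i.hom ≫ projStr 𝒜 = f) : HasModel O K f := by
  have hOF : Function.Injective (algebraMap O F) := by
    rw [IsScalarTower.algebraMap_eq O K F]
    exact (algebraMap K F).injective.comp (IsFractionRing.injective O K)
  obtain ⟨e, he⟩ := gfib_model 𝒜 ε hε hgen D hD M hML hLM
  refine ⟨model M, modelMap M, modelMap_isProper M hOF hM, model_flat M hOF, ?_, e ≪≫ i.symm, ?_⟩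
  · intro y
    have hr := stalk_regular M hreg y
    exact ((IsRegularLocalRing.iff_finrank_cotangentSpace _).1 hr).symm
  · rw [← hi, Iso.trans_hom, Iso.symm_hom, Category.assoc, Iso.inv_hom_id_assoc]
    exact he

end Pool.Agent.W418.GO
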