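import Pool.Agent.W418.GO.Alg

/-! The generic fibre of the model `Proj ⨁ Mⁿ` over a general base: schemes. -/

set_option autoImplicit false
set_option linter.unusedSectionVars false
set_option linter.style.haveILetI false

open AlgebraicGeometry CategoryTheory CategoryTheory.Limits HomogeneousLocalization

namespace Pool.Agent.W418.GO

open Pool.Agent.H968R2.Quad

section

variable (O K : Type) [CommRing O] [Field K] [Algebra O K]

/-- The generic point of the base. -/
noncomputable abbrev gbase : Spec (CommRingCat.of K) ⟶ Spec (CommRingCat.of O) :=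
  Spec.map (CommRingCat.ofHom (algebraMap O K))

variable [IsFractionRing O K]

/-- A chart of the generic fibre, from a chart of `Y` and a localization. -/
lemma exists_gfib_chart {Y : Scheme.{0}} (g : Y ⟶ Spec (CommRingCat.of O)) {B R : Type}
    [CommRing B] [CommRing R] (ρ : O →+* B) (φ : B →+* R)
    (hφ : letI := φ.toAlgebra
      IsLocalization ((nonZeroDivisors O).map ρ) R)
    (c : Spec (CommRingCat.of B) ⟶ Y) [IsOpenImmersion c]
    (hc : c ≫ g = Spec.map (CommRingCat.ofHom ρ)) :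
    ∃ (b : Spec (CommRingCat.of R) ⟶ pullback g (gbase O K)) (fm : K →+* R),
      IsOpenImmersion b ∧ fm.comp (algebraMap O K) = φ.comp ρ ∧
      b ≫ pullback.fst _ _ = Spec.map (CommRingCat.ofHom φ) ≫ c ∧
      b ≫ pullback.snd _ _ = Spec.map (CommRingCat.ofHom fm) ∧
      ∀ z : (pullback g (gbase O K) : Scheme.{0}), (∃ u, c u =
        (pullback.fst g (gbase O K)) z) → ∃ v, b v = z := by
  letI := φ.toAlgebra
  have hloc : IsLocalization ((nonZeroDivisors O).map ρ) R := hφ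
  have hu : ∀ y : nonZeroDivisors O, IsUnit ((φ.comp ρ) y) := by
    intro y
    exact IsLocalization.map_units (M := (nonZeroDivisors O).map ρ) R ⟨ρ y, y, y.2, rfl⟩
  let fm : K →+* R := IsLocalization.lift (M := nonZeroDivisors O) (g := φ.comp ρ) hu
  have H : fm.comp (algebraMap O K) = (algebraMap B R).comp ρ :=
    IsLocalization.lift_comp _
  have hpo := CommRingCat.isPushout_of_isLocalization ρ fm H (nonZeroDivisors O)
  have hpb := isPullback_SpecMap_of_isPushout _ _ _ _ hpo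
  have hcomm : (Spec.map (CommRingCat.ofHom φ) ≫ c) ≫ g =
      Spec.map (CommRingCat.ofHom fm) ≫ gbase O K := by
    rw [Category.assoc, hc]
    exact hpb.w
  let b : Spec (CommRingCat.of R) ⟶ pullback g (gbase O K) :=
    pullback.lift (Spec.map (CommRingCat.ofHom φ) ≫ c) (Spec.map (CommRingCat.ofHom fm)) hcomm
  have hb1 : b ≫ pullback.fst _ _ = Spec.map (CommRingCat.ofHom φ) ≫ c := pullback.lift_fst _ _ _
  have hb2 : b ≫ pullback.snd _ _ = Spec.map (CommRingCat.ofHom fm) := pullback.lift_snd _ _ _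
  have hbig : IsPullback (b ≫ pullback.snd _ _) (Spec.map (CommRingCat.ofHom φ))
      (gbase O K) (c ≫ g) := by
    rw [hb2, hc]
    exact hpb.flip
  have hsm : IsPullback (pullback.snd g (gbase O K)) (pullback.fst _ _) (gbase O K) g :=
    (IsPullback.of_hasPullback _ _).flip
  have hleft : IsPullback b (Spec.map (CommRingCat.ofHom φ)) (pullback.fst _ _) c :=
    IsPullback.of_right hbig hb1 hsm
  refine ⟨b, fm, MorphismProperty.of_isPullback (P := @IsOpenImmersion) hleft.flip inferInstance,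
    H, hb1, hb2, ?_⟩
  rintro z ⟨u, hu⟩
  obtain ⟨v, hv1, hv2⟩ := Scheme.Pullback.exists_preimage_pullback (f := pullback.fst
    g (gbase O K)) (g := c) z u hu.symm
  refine ⟨hleft.isoPullback.inv v, ?_⟩
  rw [← Scheme.Hom.comp_apply, IsPullback.isoPullback_inv_fst]
  exact hv1

end

/-- Gluing with the isomorphism on charts. -/
theorem iso_of_charts {X Y W : Scheme.{0}} [X.IsSeparated] [Y.IsSeparated] {ι : Type}
    (U : ι → Scheme.{0}) (a : ∀ i, U i ⟶ X) (b : ∀ i, U i ⟶ Y) (w : ∀ i, W ⟶ U i)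
    [∀ i, IsOpenImmersion (a i)] [∀ i, IsOpenImmersion (b i)]
    (ha : ∀ x : X, ∃ i y, a i y = x) (hb : ∀ x : Y, ∃ i y, b i y = x) [∀ i, IsReduced (U i)]
    [∀ i, IsDominant (w i)]
    (hwa : ∀ i j, w i ≫ a i = w j ≫ a j) (hwb : ∀ i j, w i ≫ b i = w j ≫ b j) :
    ∃ e : X ≅ Y, ∀ i, a i ≫ e.hom = b i := by
  obtain ⟨g, hg⟩ := exists_glued U a b w ha hwa hwb
  obtain ⟨h, hh⟩ := exists_glued U b a w hb hwb hwa
  have k1 : ∀ i : ι, a i ≫ g ≫ h = a i ≫ 𝟙 X := by
    intro i
    rw [← Category.assoc, hg, hh, Category.comp_id]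
  have k2 : ∀ i : ι, b i ≫ h ≫ g = b i ≫ 𝟙 Y := by
    intro i
    rw [← Category.assoc, hh, hg, Category.comp_id]
  exact ⟨⟨g, h, Scheme.Cover.hom_ext (Scheme.Cover.mkOfCovers (P := @IsOpenImmersion) ι U a ha)
      _ _ k1,
    Scheme.Cover.hom_ext (Scheme.Cover.mkOfCovers (P := @IsOpenImmersion) ι U b hb) _ _ k2⟩, hg⟩

section

variable {O : Type} [CommRing O] {F : Type} [Field F] [Algebra O F] (M : Submodule O F)

lemma modelChart_map (f : F) (hf : f ∈ M) :
    modelChart M f hf ≫ modelMap M = Spec.map (CommRingCat.ofHom (rho M f hf)) := by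
  change Proj.awayι (mPiece M) (tElt M f hf) (tElt_mem M f hf) one_pos ≫
    (Proj.toSpecZero (mPiece M) ≫ Spec.map (toZeroHom M)) = _
  rw [Proj.awayι_toSpecZero_assoc, ← Spec.map_comp]
  rfl

end

section

variable {K A : Type} [Field K] [CommRing A] [Algebra K A] (𝒜 : ℕ → Submodule K A)
  [GradedAlgebra 𝒜]

/-- The structure morphism of `Proj`. -/
noncomputable def projStr : Proj 𝒜 ⟶ Spec (CommRingCat.of K) :=
  Proj.toSpecZero 𝒜 ≫ Spec.map (CommRingCat.ofHom (algebraMap K (𝒜 0)))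

lemma awayι_projStr {f : A} {m : ℕ} (hf : f ∈ 𝒜 m) (hm : 0 < m) :
    Proj.awayι 𝒜 f hf hm ≫ projStr 𝒜 = Spec.map (CommRingCat.ofHom
      ((fromZeroRingHom 𝒜 (Submonoid.powers f)).comp (algebraMap K (𝒜 0)))) := by
  unfold projStr
  rw [Proj.awayι_toSpecZero_assoc, ← Spec.map_comp]
  rfl

end

section main

variable {O K F A : Type} [CommRing O] [IsDomain O] [Field K] [Algebra O K] [IsFractionRing O K]
  [Field F] [Algebra K F] [Algebra O F] [IsScalarTower O K F] [CommRing A] [Algebra K A]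
  (𝒜 : ℕ → Submodule K A) [GradedAlgebra 𝒜] (ε : A →ₐ[K] F)
  (hε : ∀ d, ∀ a ∈ 𝒜 d, ε a = 0 → a = 0)
  (hgen : ∀ d, (𝒜 d).map ε.toLinearMap = ((𝒜 1).map ε.toLinearMap) ^ d)

include hε hgen in
/-- A relevant homogeneous prime does not contain the elements of degree one. -/
lemma exists_deg_one (y : ProjectiveSpectrum 𝒜) :
    ∃ a ∈ 𝒜 1, a ∉ y.asHomogeneousIdeal.toIdeal := by
  classical
  by_contra hcon
  push Not at hcon
  have key : ∀ (n : ℕ), ∀ z ∈ ((𝒜 1).map ε.toLinearMap) ^ (n + 1),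
      ∃ a ∈ 𝒜 (n + 1), a ∈ y.asHomogeneousIdeal.toIdeal ∧ ε a = z := by
    intro n
    induction n with
    | zero =>
      intro z hz
      rw [zero_add, pow_one] at hz
      obtain ⟨a, ha, rfl⟩ := hz
      exact ⟨a, by simpa using ha, hcon a ha, rfl⟩
    | succ n ih =>
      intro z hz
      rw [pow_succ] at hz
      refine Submodule.mul_induction_on hz (fun u hu v hv => ?_) (fun u v hu hv => ?_)
      · obtain ⟨a, ha, hay, rfl⟩ := ih u hu
        obtain ⟨b, hb, rfl⟩ := hv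
        refine ⟨a * b, SetLike.mul_mem_graded ha hb, Ideal.mul_mem_right _ _ hay, ?_⟩
        rw [map_mul]
        rfl
      · obtain ⟨a, ha, hay, rfl⟩ := hu
        obtain ⟨b, hb, hby, rfl⟩ := hv
        exact ⟨a + b, Submodule.add_mem _ ha hb, Ideal.add_mem _ hay hby, map_add _ _ _⟩
  apply y.not_irrelevant_le
  intro z hz
  have hz0 := (HomogeneousIdeal.mem_irrelevant_iff _ _).1 hz
  rw [GradedRing.proj_apply] at hz0
  change z ∈ y.asHomogeneousIdeal.toIdeal
  rw [← DirectSum.sum_support_decompose 𝒜 z]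
  apply Ideal.sum_mem
  intro i _
  cases i with
  | zero =>
    rw [hz0]
    exact Ideal.zero_mem _
  | succ n =>
    have h1 : ε (DirectSum.decompose 𝒜 z (n + 1)) ∈ ((𝒜 1).map ε.toLinearMap) ^ (n + 1) := by
      rw [← hgen]
      exact ⟨_, (DirectSum.decompose 𝒜 z (n + 1)).2, rfl⟩
    obtain ⟨a, ha, hay, he⟩ := key n _ h1
    have h2 : a - (DirectSum.decompose 𝒜 z (n + 1) : A) = 0 := by
      apply hε (n + 1)
      · exact Submodule.sub_mem _ ha (DirectSum.decompose 𝒜 z (n + 1)).2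
      · rw [map_sub, he, sub_self]
    rw [← sub_eq_zero.1 h2]
    exact hay

variable (D : ℕ) (hD : 0 < D) (M : Submodule O F)
  (hML : ∀ y ∈ M, y ∈ (𝒜 1).map ε.toLinearMap ^ D)
  (hLM : ∀ y ∈ (𝒜 1).map ε.toLinearMap ^ D, ∃ s : O, s ≠ 0 ∧ s • y ∈ M)

/-- The index type of the charts. -/
abbrev Ind (M : Submodule O F) : Type := {f : F // f ∈ M ∧ f ≠ 0}

include hε hgen hD hML hLM in
theorem gfib_model : ∃ e : (pullback (modelMap M) (gbase O K) : Scheme.{0}) ≅ Proj 𝒜,
    e.hom ≫ projStr 𝒜 = pullback.snd (modelMap M) (gbase O K) := by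
  have hOK : Function.Injective (algebraMap O K) := IsFractionRing.injective O K
  have hOF : ∀ s : O, s ≠ 0 → algebraMap O F s ≠ 0 := by
    intro s hs
    rw [IsScalarTower.algebraMap_apply O K F]
    exact (map_ne_zero _).2 fun h => hs (hOK (by rw [h, map_zero]))
  -- lifts
  have hlift : ∀ f : Ind M, ∃ h ∈ 𝒜 D, ε h = f.1 := by
    intro f
    have h1 := hML f.1 f.2.1
    rw [← hgen] at h1
    obtain ⟨h, hh, he⟩ := h1
    exact ⟨h, hh, he⟩
  choose h hh hhf using hlift
  have hφ : ∀ f : Ind M, ∃ φ : Away (mPiece M) (tElt M f.1 f.2.1) →+* Away 𝒜 (h f),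
      (Pool.Agent.W418.psi 𝒜 (ε : A →+* F) (h f) (evh ε f.1 f.2.2 (h f) (hhf f))).comp φ =
        Pool.Agent.W418.psi (mPiece M) (evalOne M) (tElt M f.1 f.2.1) (evT M f.1 f.2.1 f.2.2) :=
    fun f => exists_phi 𝒜 ε hε hgen D M hML f.1 f.2.1 f.2.2 (h f) (hh f) (hhf f)
  choose φ hφ using hφ
  have hloc := fun f : Ind M => phi_isLocalization 𝒜 ε hε hgen D M hLM f.1 f.2.1 f.2.2 (h f)
    (hh f) (hhf f) (φ f) (hφ f)
  have hch := fun f : Ind M => exists_gfib_chart O K (modelMap M) (rho M f.1 f.2.1) (φ f) (hloc f)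
    (modelChart M f.1 f.2.1) (modelChart_map M f.1 f.2.1)
  choose b fm hbo hfm hb1 hb3 hb2 using hch
  have hsep1 : (pullback (modelMap M) (gbase O K) : Scheme.{0}).IsSeparated := by
    have h1 : (model M).IsSeparated := inferInstanceAs ((Proj (mPiece M)).IsSeparated)
    have h2 : IsSeparated (modelMap M) := inferInstance
    have h5 : IsSeparated (pullback.snd (modelMap M) (gbase O K)) := inferInstance
    constructor
    have h4 : terminal.from (pullback (modelMap M) (gbase O K) : Scheme.{0}) =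
      pullback.snd (modelMap M) (gbase O K) ≫ terminal.from _ :=
      terminal.hom_ext _ _
    rw [h4]
    infer_instance
  have hsep2 : (Proj 𝒜).IsSeparated := inferInstance
  have hdomain : ∀ f : Ind M, IsDomain (Away 𝒜 (h f)) := fun f =>
    away_isDomain 𝒜 (ε : A →+* F) hε (hh f) (evh ε f.1 f.2.2 (h f) (hhf f))
  have hdomi : ∀ f : Ind M, IsDominant (gpt 𝒜 (ε : A →+* F) (h f)
      (evh ε f.1 f.2.2 (h f) (hhf f))) := fun f =>
    gpt_isDominant 𝒜 (ε : A →+* F) hε (hh f) (evh ε f.1 f.2.2 (h f) (hhf f))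
  have hcov : ∀ z : (pullback (modelMap M) (gbase O K) : Scheme.{0}), ∃ (i : Ind M) (y : _),
      b i y = z := by
    intro z
    obtain ⟨a, ha, ha0, u, hu⟩ := exists_chart M ((pullback.fst (modelMap M) (gbase O K)) z)
    obtain ⟨v, hv⟩ := hb2 ⟨a, ha, ha0⟩ z ⟨u, hu⟩
    exact ⟨⟨a, ha, ha0⟩, v, hv⟩
  -- the morphisms over the base
  have hstr : ∀ f : Ind M, Proj.awayι 𝒜 (h f) (hh f) hD ≫ projStr 𝒜 =
      b f ≫ pullback.snd (modelMap M) (gbase O K) := by
    intro f
    rw [awayι_projStr, hb3]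
    congr 2
    apply IsLocalization.ringHom_ext (nonZeroDivisors O)
    rw [hfm]
    apply RingHom.ext
    intro o
    apply Pool.Agent.W418.psi_injective 𝒜 (ε : A →+* F) hε (hh f)
      (evh ε f.1 f.2.2 (h f) (hhf f))
    have h1 : Pool.Agent.W418.psi 𝒜 (ε : A →+* F) (h f) (evh ε f.1 f.2.2 (h f) (hhf f))
        ((φ f) (rho M f.1 f.2.1 o)) = algebraMap O F o := by
      have h2 := congrArg (fun j => j (rho M f.1 f.2.1 o)) (hφ f)
      change _ = _ at h2
      rw [← psi_rho M f.1 f.2.1 f.2.2 o]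
      exact h2
    change Pool.Agent.W418.psi 𝒜 (ε : A →+* F) (h f) (evh ε f.1 f.2.2 (h f) (hhf f))
      (fromZeroRingHom 𝒜 _ (algebraMap K (𝒜 0) (algebraMap O K o))) = _
    rw [psi_fromZero]
    change _ = Pool.Agent.W418.psi 𝒜 (ε : A →+* F) (h f) (evh ε f.1 f.2.2 (h f) (hhf f))
        ((φ f) (rho M f.1 f.2.1 o))
    rw [h1, IsScalarTower.algebraMap_apply O K F]
    exact ε.commutes _
  obtain ⟨e, he⟩ := iso_of_charts (W := Spec (CommRingCat.of F))
    (fun f : Ind M => Spec (CommRingCat.of (Away 𝒜 (h f)))) b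
    (fun f => Proj.awayι 𝒜 (h f) (hh f) hD)
    (fun f => gpt 𝒜 (ε : A →+* F) (h f) (evh ε f.1 f.2.2 (h f) (hhf f))) hcov (by
    intro y
    obtain ⟨a, ha, hay⟩ := exists_deg_one 𝒜 ε hε hgen y
    have haD : a ^ D ∈ 𝒜 D := by
      have := SetLike.pow_mem_graded D ha
      simpa using this
    have h1 : ε (a ^ D) ∈ (𝒜 1).map ε.toLinearMap ^ D := by
      rw [← hgen]
      exact ⟨_, haD, rfl⟩
    obtain ⟨s, hs, hsM⟩ := hLM _ h1
    have ha0 : ε (a ^ D) ≠ 0 := by
      intro h0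
      have h2 := hε D _ haD h0
      have h3 : a ^ D ∈ y.asHomogeneousIdeal.toIdeal := by rw [h2]; exact Ideal.zero_mem _
      exact hay (y.isPrime.mem_of_pow_mem _ h3)
    have hs0 : s • ε (a ^ D) ≠ 0 := by
      rw [Algebra.smul_def]
      exact mul_ne_zero (hOF s hs) ha0
    have hsK : algebraMap O K s ≠ 0 := fun h => hs (hOK (by rw [h, map_zero]))
    have h4 : h ⟨_, hsM, hs0⟩ = algebraMap O K s • a ^ D := by
      rw [← sub_eq_zero]
      apply hε D
      · exact Submodule.sub_mem _ (hh _) (Submodule.smul_mem _ _ haD)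
      · rw [map_sub, hhf, map_smul]
        change s • ε (a ^ D) - _ = 0
        rw [Algebra.smul_def, Algebra.smul_def, IsScalarTower.algebraMap_apply O K F, sub_self]
    have h5 : y ∈ Proj.basicOpen 𝒜 (h ⟨_, hsM, hs0⟩) := by
      rw [h4]
      change algebraMap O K s • a ^ D ∉ y.asHomogeneousIdeal.toIdeal
      intro h6
      have h7 : algebraMap K A ((algebraMap O K s)⁻¹) * (algebraMap O K s • a ^ D) ∈
          y.asHomogeneousIdeal.toIdeal :=
        Ideal.mul_mem_left _ _ h6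
      have h8 : algebraMap K A ((algebraMap O K s)⁻¹) * (algebraMap O K s • a ^ D) = a ^ D := by
        rw [Algebra.smul_def, ← mul_assoc, ← map_mul, inv_mul_cancel₀ hsK, map_one, one_mul]
      rw [h8] at h7
      exact hay (y.isPrime.mem_of_pow_mem _ h7)
    rw [← Proj.opensRange_awayι 𝒜 _ (hh ⟨_, hsM, hs0⟩) hD] at h5
    obtain ⟨u, hu⟩ := h5
    exact ⟨_, u, hu⟩) (by
    intro f g
    apply pullback.hom_ext
    · rw [Category.assoc, Category.assoc, hb1, hb1]
      have h1 : ∀ f : Ind M, gpt 𝒜 (ε : A →+* F) (h f) (evh ε f.1 f.2.2 (h f) (hhf f)) ≫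
          Spec.map (CommRingCat.ofHom (φ f)) ≫ modelChart M f.1 f.2.1 =
          gpt (mPiece M) (evalOne M) (tElt M f.1 f.2.1) (evT M f.1 f.2.1 f.2.2) ≫
            Proj.awayι (mPiece M) (tElt M f.1 f.2.1) (tElt_mem M f.1 f.2.1) one_pos := by
        intro f
        rw [← Category.assoc]
        have h2 : gpt 𝒜 (ε : A →+* F) (h f) (evh ε f.1 f.2.2 (h f) (hhf f)) ≫
          Spec.map (CommRingCat.ofHom (φ f)) =
          gpt (mPiece M) (evalOne M) (tElt M f.1 f.2.1) (evT M f.1 f.2.1 f.2.2) := by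
          unfold gpt
          rw [← Spec.map_comp, ← CommRingCat.ofHom_comp, hφ f]
        rw [h2]
        rfl
      rw [h1, h1]
      exact gpt_comp (mPiece M) (evalOne M) (tElt_mem M f.1 f.2.1) one_pos
        (tElt_mem M g.1 g.2.1) one_pos _ _
    · rw [Category.assoc, Category.assoc, ← hstr, ← hstr, ← Category.assoc, ← Category.assoc]
      congr 1
      exact gpt_comp 𝒜 (ε : A →+* F) (hh f) hD (hh g) hD _ _) (by
    intro f g
    exact gpt_comp 𝒜 (ε : A →+* F) (hh f) hD (hh g) hD _ _)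
  refine ⟨e, ?_⟩
  refine Scheme.Cover.hom_ext (Scheme.Cover.mkOfCovers (P := @IsOpenImmersion) (Ind M) _ b hcov)
    _ _ fun f => ?_
  change b f ≫ e.hom ≫ projStr 𝒜 = b f ≫ _
  rw [← Category.assoc, he f]
  exact hstr f

end main

end Pool.Agent.W418.GO
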